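import Mathlib

namespace Pool.Agent.Results.MP_2c9a54_an.Positive

open Finset

/-- a positive solution; `x m` stands for `x_{m-1}` -/
def Sol (B x : ℕ → ℝ) : Prop := (∀ n, 0 < x n) ∧ ∀ n, x (n + 2) = 1 / (B n * x (n + 1) + x n)

noncomputable def ρ (B : ℕ → ℝ) (n : ℕ) : ℝ := B n / (1 + B n * B (n + 2))

noncomputable def ex (B : ℕ → ℝ) : ℕ → ℝ
  | 0 => 1
  | 1 => 1
  | n + 2 => 1 / (B n * ex B (n + 1) + ex B n)

lemma ex_sol (B : ℕ → ℝ) (hB : ∀ n, 0 < B n) : Sol B (ex B) := by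
  refine ⟨fun n => ?_, fun n => by rw [ex]⟩
  induction n using Nat.twoStepInduction with
  | zero => simp [ex]
  | one => simp [ex]
  | more n h1 h2 => rw [ex]; have := hB n; positivity

lemma per_mul {f : ℕ → ℝ} {p : ℕ} (h : ∀ n, f (n + p) = f n) (n t : ℕ) : f (n + p * t) = f n := by
  induction t with
  | zero => simp
  | succ t ih => rw [mul_add, mul_one, ← add_assoc, h, ih]

lemma bounds {B : ℕ → ℝ} {p : ℕ} (hp : 0 < p) (hB : ∀ n, 0 < B n) (h : ∀ n, B (n + p) = B n) :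
    ∃ K : ℝ, 1 ≤ K ∧ ∀ n, B n ≤ K ∧ 1 ≤ K * B n := by
  refine ⟨1 + ∑ i ∈ range p, (B i + 1 / B i), ?_, fun n => ?_⟩
  · have : 0 ≤ ∑ i ∈ range p, (B i + 1 / B i) := sum_nonneg fun i _ => by have := hB i; positivity
    linarith
  · have e : B n = B (n % p) := by
      conv_lhs => rw [← Nat.mod_add_div n p, per_mul h]
    have h1 : B (n % p) + 1 / B (n % p) ≤ ∑ i ∈ range p, (B i + 1 / B i) :=
      single_le_sum (f := fun i => B i + 1 / B i) (fun i _ => by have := hB i; positivity)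
        (mem_range.2 (Nat.mod_lt n hp))
    rw [← e] at h1
    have h2 := hB n
    have h3 : 0 < 1 / B n := by positivity
    have h4 : 1 / B n * B n = 1 := by field_simp
    constructor
    · linarith
    · nlinarith

lemma prod_shift {f : ℕ → ℝ} {l : ℕ} (hf : ∀ n, 0 < f n) (h : ∀ n, f (n + 3 * l) = f n) (s t : ℕ) :
    ∏ j ∈ range l, f (s + 3 * t + 3 * j) = ∏ j ∈ range l, f (s + 3 * j) := by
  induction t with
  | zero => simp
  | succ t ih =>
    rw [← ih]
    have h1 := prod_range_succ (fun j => f (s + 3 * t + 3 * j)) l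
    have h2 := prod_range_succ' (fun j => f (s + 3 * t + 3 * j)) l
    simp only [h, mul_zero, add_zero] at h1 h2
    rw [h1] at h2
    rw [mul_right_cancel₀ (hf _).ne' h2]
    exact prod_congr rfl fun j _ => by congr 1; ring

lemma ρ_pos {B : ℕ → ℝ} (hB : ∀ n, 0 < B n) (n : ℕ) : 0 < ρ B n := by
  have := hB n; have := hB (n + 2); unfold ρ; positivity

lemma up {B x : ℕ → ℝ} {K : ℝ} (hB : ∀ n, 0 < B n) (hK1 : 1 ≤ K) (hK : ∀ n, B n ≤ K ∧ 1 ≤ K * B n)
    (hx : Sol B x) (n : ℕ) : x (n + 5) ≤ ρ B (n + 1) * x (n + 2) + (K ^ 3 + K * (1 + K)) := by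
  obtain ⟨h0, h⟩ := hx
  have r : ∀ n, x (n + 2) * (B n * x (n + 1) + x n) = 1 := fun n => by
    have := hB n; have := h0 n; have := h0 (n + 1)
    rw [h n]; field_simp
  have r0 := r n
  have r1 := r (n + 1)
  have r2 := r (n + 2)
  have r3 := r (n + 3)
  have p0 := h0 n
  have p1 := h0 (n + 1)
  have p2 := h0 (n + 2)
  have p3 := h0 (n + 3)
  have p4 := h0 (n + 4)
  have p5 := h0 (n + 5)
  have hρ := ρ_pos hB (n + 1)
  have hρe : ρ B (n + 1) * (1 + B (n + 1) * B (n + 3)) = B (n + 1) := by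
    have := hB (n + 1); have := hB (n + 3); unfold ρ; field_simp
  obtain ⟨-, k0⟩ := hK n
  obtain ⟨u1, k1⟩ := hK (n + 1)
  obtain ⟨u2, -⟩ := hK (n + 2)
  obtain ⟨-, k3⟩ := hK (n + 3)
  have b0 := hB n
  have b1 := hB (n + 1)
  have b2 := hB (n + 2)
  have b3 := hB (n + 3)
  simp only [show n + 1 + 2 = n + 3 by ring, show n + 1 + 1 = n + 2 by ring,
    show n + 2 + 2 = n + 4 by ring, show n + 2 + 1 = n + 3 by ring,
    show n + 3 + 2 = n + 5 by ring, show n + 3 + 1 = n + 4 by ring] at r1 r2 r3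
  generalize ρ B (n + 1) = q at *
  generalize x n = z at *
  generalize x (n + 1) = y at *
  generalize x (n + 2) = a at *
  generalize x (n + 3) = c at *
  generalize x (n + 4) = d at *
  generalize x (n + 5) = e at *
  generalize B n = B0 at *
  generalize B (n + 1) = B1 at *
  generalize B (n + 2) = B2 at *
  generalize B (n + 3) = B3 at *
  have hK0 : 0 < K := by linarith
  have hqa : 0 < q * a := by positivity
  have hK3 : 0 < K ^ 3 := by positivity
  rcases le_total a 1 with ha | ha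
  · rcases le_total c 1 with hc | hc
    · have h1 : e * (B3 * d) ≤ 1 := by nlinarith [mul_pos p5 p3]
      have h2 : 1 ≤ d * (K + 1) := by
        have : B2 * c ≤ K := by nlinarith
        nlinarith
      have h3 : e ≤ e * (K * B3) * (d * (K + 1)) := by
        have : e ≤ e * (K * B3) := by nlinarith
        have h5 : 0 < e * (K * B3) := by positivity
        nlinarith
      have h4 : e * (K * B3) * (d * (K + 1)) = e * (B3 * d) * (K * (1 + K)) := by ring
      have h5 : 0 < K * (1 + K) := by positivity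
      nlinarith
    · have h1 : e * c ≤ 1 := by nlinarith [mul_pos p5 (mul_pos b3 p4)]
      have : e ≤ 1 := by nlinarith
      nlinarith
  · have hy : y ≤ K := by
      have h1 : a * (B0 * y) ≤ 1 := by nlinarith [mul_pos p2 p0]
      have h2 : B0 * y ≤ 1 := by nlinarith [mul_pos b0 p1]
      nlinarith
    have hc : c ≤ K := by
      have h1 : c * (B1 * a) ≤ 1 := by nlinarith [mul_pos p3 p1]
      have h2 : c * B1 ≤ 1 := by nlinarith [mul_pos p3 b1]
      nlinarith
    have h1 : 1 ≤ d * (a + K ^ 2) := by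
      have : B2 * c ≤ K ^ 2 := by nlinarith
      nlinarith
    have h2 : 1 ≤ c * B1 * (a + K ^ 2) := by
      have : y ≤ B1 * K ^ 2 := by nlinarith
      nlinarith
    have hA : 0 < a + K ^ 2 := by positivity
    have h3 : e * (1 + B1 * B3) ≤ B1 * (a + K ^ 2) := by
      have h4 : e * (B1 * B3) ≤ e * (B1 * B3) * (d * (a + K ^ 2)) := by
        have : 0 < e * (B1 * B3) := by positivity
        nlinarith
      have h5 : e ≤ e * (c * B1 * (a + K ^ 2)) := by nlinarith
      have h6 : e * (B1 * B3) * (d * (a + K ^ 2)) + e * (c * B1 * (a + K ^ 2))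
          = B1 * (a + K ^ 2) := by linear_combination B1 * (a + K ^ 2) * r3
      linarith
    have hD : 0 < 1 + B1 * B3 := by positivity
    have h4 : e ≤ q * (a + K ^ 2) := by
      apply le_of_mul_le_mul_right _ hD
      calc e * (1 + B1 * B3) ≤ B1 * (a + K ^ 2) := h3
        _ = q * (a + K ^ 2) * (1 + B1 * B3) := by linear_combination (-(a + K ^ 2)) * hρe
    have h5 : q ≤ K := by nlinarith [mul_pos hρ (mul_pos b1 b3)]
    have h6 : q * K ^ 2 ≤ K ^ 3 := by nlinarith [pow_pos hK0 2]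
    have h7 : 0 < K * (1 + K) := by positivity
    nlinarith

lemma bdd {B : ℕ → ℝ} {l : ℕ} (hl : 0 < l) (hB : ∀ n, 0 < B n) (hp : ∀ n, B (n + 3 * l) = B n)
    (h : ∀ r < 3, ∏ j ∈ range l, ρ B (r + 3 * j) < 1) (x : ℕ → ℝ) (hx : Sol B x) :
    BddAbove (Set.range x) := by
  obtain ⟨K, hK1, hK⟩ := bounds (by omega : 0 < 3 * l) hB hp
  have hρp : ∀ n, ρ B (n + 3 * l) = ρ B n := fun n => by
    unfold ρ; rw [hp, show n + 3 * l + 2 = n + 2 + 3 * l by ring, hp]
  have hρK : ∀ n, ρ B n ≤ K := fun n => by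
    have := hB n; have := hB (n + 2)
    unfold ρ; rw [div_le_iff₀ (by positivity)]
    nlinarith [(hK n).1, mul_pos (hB n) (hB (n + 2))]
  obtain ⟨θ, hθ0, hθ1, hθ⟩ : ∃ θ : ℝ, 0 ≤ θ ∧ θ < 1 ∧ ∀ s, ∏ j ∈ range l, ρ B (s + 3 * j) ≤ θ := by
    refine ⟨max (max (max 0 (∏ j ∈ range l, ρ B (0 + 3 * j))) (∏ j ∈ range l, ρ B (1 + 3 * j)))
      (∏ j ∈ range l, ρ B (2 + 3 * j)), by simp, ?_, fun s => ?_⟩
    · exact max_lt (max_lt (max_lt one_pos (h 0 (by norm_num))) (h 1 (by norm_num))) (h 2 (by norm_num))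
    · rw [← Nat.mod_add_div s 3, prod_shift (ρ_pos hB) hρp]
      have : s % 3 = 0 ∨ s % 3 = 1 ∨ s % 3 = 2 := by omega
      rcases this with e | e | e <;> rw [e] <;> simp
  have it : ∀ j : ℕ, ∃ D : ℝ, 0 ≤ D ∧ ∀ s,
      x (s + 2 + 3 * j) ≤ (∏ i ∈ range j, ρ B (s + 1 + 3 * i)) * x (s + 2) + D := by
    intro j
    induction j with
    | zero => exact ⟨0, le_rfl, fun s => by simp⟩
    | succ j ih =>
      obtain ⟨D, hD, ih⟩ := ih
      refine ⟨K * D + (K ^ 3 + K * (1 + K)), by positivity, fun s => ?_⟩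
      have h1 := up hB hK1 hK hx (s + 3 * j)
      rw [show s + 3 * j + 5 = s + 2 + 3 * (j + 1) by ring, show s + 3 * j + 1 = s + 1 + 3 * j by ring,
        show s + 3 * j + 2 = s + 2 + 3 * j by ring] at h1
      rw [prod_range_succ]
      have h2 := mul_le_mul_of_nonneg_left (ih s) (ρ_pos hB (s + 1 + 3 * j)).le
      have h3 := mul_le_mul_of_nonneg_right (hρK (s + 1 + 3 * j)) hD
      nlinarith
  obtain ⟨D, hD, it⟩ := it l
  set W := D / (1 - θ) + ∑ i ∈ range (3 * l + 2), x i with hW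
  have hs : 0 ≤ ∑ i ∈ range (3 * l + 2), x i := sum_nonneg fun i _ => (hx.1 i).le
  have hd : 0 ≤ D / (1 - θ) := div_nonneg hD (by linarith)
  have hd' : D / (1 - θ) * (1 - θ) = D := div_mul_cancel₀ _ (by linarith)
  refine ⟨W, ?_⟩
  rintro _ ⟨m, rfl⟩
  induction m using Nat.strong_induction_on with
  | _ m ih =>
    rcases Nat.lt_or_ge m (3 * l + 2) with hm | hm
    · have := single_le_sum (f := x) (fun i _ => (hx.1 i).le) (mem_range.2 hm)
      linarith
    · obtain ⟨s, rfl⟩ : ∃ s, m = s + 2 + 3 * l := ⟨m - 2 - 3 * l, by omega⟩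
      have h1 := it s
      have h2 := ih (s + 2) (by omega)
      have h3 := mul_le_mul_of_nonneg_right (hθ (s + 1)) (hx.1 (s + 2)).le
      have h4 := mul_le_mul_of_nonneg_left h2 hθ0
      nlinarith

lemma unb {B : ℕ → ℝ} {l : ℕ} (hl : 0 < l) (hB : ∀ n, 0 < B n) (hp : ∀ n, B (n + 3 * l) = B n)
    (r : ℕ) (h : 1 ≤ ∏ j ∈ range l, ρ B (r + 3 * j)) (x : ℕ → ℝ) (hx : Sol B x) :
    ¬ BddAbove (Set.range x) := by
  rintro ⟨M, hM⟩
  replace hM : ∀ n, x n ≤ M := fun n => hM ⟨n, rfl⟩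
  obtain ⟨K, hK1, hK⟩ := bounds (by omega : 0 < 3 * l) hB hp
  have hρp : ∀ n, ρ B (n + 3 * l) = ρ B n := fun n => by
    unfold ρ; rw [hp, show n + 3 * l + 2 = n + 2 + 3 * l by ring, hp]
  obtain ⟨h0, hr⟩ := hx
  have hM0 : 0 < M := (h0 0).trans_le (hM 0)
  have r' : ∀ n, x (n + 2) * (B n * x (n + 1) + x n) = 1 := fun n => by
    have := hB n; have := h0 n; have := h0 (n + 1)
    rw [hr n]; field_simp
  obtain ⟨δ, hδ, low⟩ : ∃ δ : ℝ, 0 < δ ∧ ∀ n, δ * (K * M) ≤ x (n + 2) := by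
    refine ⟨1 / ((K + 1) * M) / (K * M), by positivity, fun n => ?_⟩
    rw [div_mul_cancel₀ _ (by positivity), hr n]
    have := hB n; have := h0 n; have := h0 (n + 1)
    apply one_div_le_one_div_of_le (by positivity)
    nlinarith [(hK n).1, hM n, hM (n + 1)]
  have step : ∀ n, (1 + δ) * ρ B (n + 2) * x (n + 3) ≤ x (n + 6) := by
    intro n
    have r1 := r' (n + 2)
    have r2 := r' (n + 3)
    have r3 := r' (n + 4)
    have l1 := low n
    have l2 := low (n + 2)
    have p2 := h0 (n + 3)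
    have p3 := h0 (n + 4)
    have p4 := h0 (n + 5)
    have p5 := h0 (n + 6)
    have m2 := hM (n + 3)
    have hρ := ρ_pos hB (n + 2)
    have hρe : ρ B (n + 2) * (1 + B (n + 2) * B (n + 4)) = B (n + 2) := by
      have := hB (n + 2); have := hB (n + 4); unfold ρ; field_simp
    obtain ⟨u1, -⟩ := hK (n + 2)
    obtain ⟨-, k2⟩ := hK (n + 3)
    have b1 := hB (n + 2)
    have b2 := hB (n + 3)
    have b3 := hB (n + 4)
    simp only [show n + 2 + 2 = n + 4 by ring, show n + 2 + 1 = n + 3 by ring,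
      show n + 3 + 2 = n + 5 by ring, show n + 3 + 1 = n + 4 by ring,
      show n + 4 + 2 = n + 6 by ring, show n + 4 + 1 = n + 5 by ring] at r1 r2 r3 l2
    generalize ρ B (n + 2) = q at *
    generalize x (n + 2) = y at *
    generalize x (n + 3) = a at *
    generalize x (n + 4) = c at *
    generalize x (n + 5) = d at *
    generalize x (n + 6) = e at *
    generalize B (n + 2) = B1 at *
    generalize B (n + 3) = B2 at *
    generalize B (n + 4) = B3 at *
    have h1 : δ * (B1 * a) ≤ y := by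
      have : B1 * a ≤ K * M := by nlinarith
      nlinarith
    have h2 : δ * a ≤ B2 * c := by
      have e1 : δ * (K * M) * B2 ≤ c * B2 := mul_le_mul_of_nonneg_right l2 b2.le
      have e2 : δ * M ≤ δ * M * (K * B2) := by nlinarith [mul_pos hδ hM0]
      nlinarith
    have h3 : c * ((1 + δ) * (B1 * a)) ≤ 1 := by nlinarith
    have h4 : d * ((1 + δ) * a) ≤ 1 := by nlinarith
    have h5 : (1 + δ) * a * B1 ≤ e * (1 + B1 * B3) := by
      have e1 : (1 + δ) * a * B1 = e * (c * ((1 + δ) * (B1 * a)))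
          + e * (B1 * B3) * (d * ((1 + δ) * a)) := by linear_combination (-(1 + δ) * a * B1) * r3
      have e2 : 0 < e * (B1 * B3) := by positivity
      nlinarith
    have hD : 0 < 1 + B1 * B3 := by positivity
    apply le_of_mul_le_mul_right _ hD
    calc (1 + δ) * q * a * (1 + B1 * B3) = (1 + δ) * a * (q * (1 + B1 * B3)) := by ring
      _ = (1 + δ) * a * B1 := by rw [hρe]
      _ ≤ _ := h5
  have it : ∀ s j, (1 + δ) ^ j * (∏ i ∈ range j, ρ B (s + 2 + 3 * i)) * x (s + 3)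
      ≤ x (s + 3 + 3 * j) := by
    intro s j
    induction j with
    | zero => simp
    | succ j ih =>
      have h1 := step (s + 3 * j)
      rw [show s + 3 * j + 6 = s + 3 + 3 * (j + 1) by ring, show s + 3 * j + 2 = s + 2 + 3 * j by ring,
        show s + 3 * j + 3 = s + 3 + 3 * j by ring] at h1
      have h2 : 0 ≤ (1 + δ) * ρ B (s + 2 + 3 * j) := by have := ρ_pos hB (s + 2 + 3 * j); positivity
      have h3 := mul_le_mul_of_nonneg_left ih h2
      rw [prod_range_succ, pow_succ]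
      nlinarith
  have grow : ∀ t : ℕ, (1 + δ) ^ t * x (r + 4) ≤ x (r + 4 + 3 * (l * t)) := by
    intro t
    induction t with
    | zero => simp
    | succ t ih =>
      have h1 := it (r + 1 + 3 * (l * t)) l
      rw [show r + 1 + 3 * (l * t) + 2 = r + 3 * (l * t + 1) by ring, prod_shift (ρ_pos hB) hρp,
        show r + 1 + 3 * (l * t) + 3 = r + 4 + 3 * (l * t) by ring,
        show r + 4 + 3 * (l * t) + 3 * l = r + 4 + 3 * (l * (t + 1)) by ring] at h1
      have h2 : 1 + δ ≤ (1 + δ) ^ l := le_self_pow₀ (by linarith) hl.ne'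
      have h3 := h0 (r + 4 + 3 * (l * t))
      have h4 : (1 + δ) * 1 ≤ (1 + δ) ^ l * ∏ j ∈ range l, ρ B (r + 3 * j) :=
        mul_le_mul h2 h zero_le_one (by positivity)
      have h5 := mul_le_mul_of_nonneg_right h4 h3.le
      have h6 := mul_le_mul_of_nonneg_left ih (by linarith : 0 ≤ 1 + δ)
      rw [pow_succ]
      nlinarith
  obtain ⟨t, ht⟩ := pow_unbounded_of_one_lt (M / x (r + 4)) (by linarith : 1 < 1 + δ)
  rw [div_lt_iff₀ (h0 _)] at ht
  linarith [grow t, hM (r + 4 + 3 * (l * t))]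

lemma small {B : ℕ → ℝ} {k : ℕ} (hk : 0 < k) (h3 : ¬ 3 ∣ k) (hB : ∀ n, 0 < B n)
    (hp : ∀ n, B (n + k) = B n) (r : ℕ) : ∏ j ∈ range k, ρ B (r + 3 * j) < 1 := by
  have hp3 : ∀ n, B (n + 3 * k) = B n := fun n => by rw [mul_comm, per_mul hp]
  have e : ∏ j ∈ range k, B (r + 3 * j + 2) = ∏ j ∈ range k, B (r + 3 * j) := by
    obtain ⟨t, u, htu⟩ : ∃ t u, 2 + 3 * t = k * u := by
      have : k % 3 = 1 ∨ k % 3 = 2 := by omega
      rcases this with h | h
      · exact ⟨2 * (k / 3), 2, by omega⟩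
      · exact ⟨k / 3, 1, by omega⟩
    calc ∏ j ∈ range k, B (r + 3 * j + 2) = ∏ j ∈ range k, B (r + 2 + 3 * j) :=
          prod_congr rfl fun j _ => by congr 1; ring
      _ = ∏ j ∈ range k, B (r + 2 + 3 * t + 3 * j) := (prod_shift hB hp3 _ _).symm
      _ = _ := prod_congr rfl fun j _ => by
          rw [show r + 2 + 3 * t + 3 * j = r + 3 * j + k * u by omega, per_mul hp]
  have h1 : ∏ j ∈ range k, (ρ B (r + 3 * j) ^ 2 * B (r + 3 * j + 2)) < ∏ j ∈ range k, B (r + 3 * j) := by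
    refine prod_lt_prod_of_nonempty (fun j _ => ?_) (fun j _ => ?_) ⟨0, mem_range.2 hk⟩
    · have := ρ_pos hB (r + 3 * j); have := hB (r + 3 * j + 2); positivity
    · have b1 := hB (r + 3 * j)
      have b2 := hB (r + 3 * j + 2)
      unfold ρ
      generalize B (r + 3 * j) = u at *
      generalize B (r + 3 * j + 2) = v at *
      rw [div_pow, div_mul_eq_mul_div, div_lt_iff₀ (by positivity)]
      have : 0 < u * v := by positivity
      nlinarith [mul_pos b1 this, mul_pos b1 (mul_pos this this)]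
  rw [prod_mul_distrib, prod_pow, e] at h1
  have h2 : 0 < ∏ j ∈ range k, B (r + 3 * j) := prod_pos fun j _ => hB _
  have h4 : 0 < ∏ j ∈ range k, ρ B (r + 3 * j) := prod_pos fun j _ => ρ_pos hB _
  by_contra hc
  push Not at hc
  nlinarith [mul_pos h2 h4]

theorem result (k : ℕ) (hk : 1 ≤ k) (B : ℕ → ℝ) (hB : ∀ n, 0 < B n) (hp : ∀ n, B (n + k) = B n) :
    (∀ x, Sol B x → BddAbove (Set.range x)) ↔
      (¬ 3 ∣ k ∨ ∀ r < 3, ∏ j ∈ range (k / 3),
        B (r + 3 * j) / (1 + B (r + 3 * j) * B (r + 3 * j + 2)) < 1) := by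
  by_cases h3 : 3 ∣ k
  · obtain ⟨l, rfl⟩ := h3
    rw [Nat.mul_div_cancel_left _ (by norm_num : 0 < 3)]
    constructor
    · intro h
      refine Or.inr fun r _ => ?_
      by_contra hc
      exact unb (by omega) hB hp r (not_lt.1 hc) _ (ex_sol B hB) (h _ (ex_sol B hB))
    · rintro (h | h)
      · exact absurd (Dvd.intro l rfl) h
      · exact bdd (by omega) hB hp h
  · refine ⟨fun _ => Or.inl h3, fun _ => ?_⟩
    exact bdd (l := k) hk hB (fun n => by rw [mul_comm, per_mul hp])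
      (fun r _ => small hk h3 hB hp r)

end Pool.Agent.Results.MP_2c9a54_an.Positive
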